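import Pool.Agent.Helper10.V6.Asm
import Pool.Agent.Helper10.V4.FinF

/-!
# V6: the theorem over an arbitrary field, in the form of the result file
-/

set_option autoImplicit false

namespace Pool.Agent.Helper10.V6

open MvPolynomial Pool.Agent.Helper61.TH Pool.Agent.Helper87.FK Pool.Agent.Helper26.OB Pool.Agent.Helper10.TR
open Pool.Agent.Helper26.OS (evI jacI)
open Pool.Agent.Helper10.V3 (Ram)
open Pool.Agent.Helper10.V4 (Fs Ms mem_Fs mem_Ms_alg mem_Ms)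

noncomputable section

theorem fin
    {m n : ℕ} (K : Subfield ℂ) (B D : Set (MvPolynomial (Fin m) ℂ))
    (hB : ∀ g ∈ B, ∀ s, coeff s g ∈ K) (hD : ∀ g ∈ D, ∀ s, coeff s g ∈ K)
    (F : Fin m → MvPolynomial (Fin m) ℂ) (hF : ∀ i s, coeff s (F i) ∈ K)
    (hFX : ∀ t, ((∀ g ∈ B, eval t g = 0) ∧ ∃ g ∈ D, eval t g ≠ 0) →
      ((∀ g ∈ B, eval (fun i => eval t (F i)) g = 0) ∧ ∃ g ∈ D, eval (fun i => eval t (F i)) g ≠ 0))
    (P : Fin n → MvPolynomial (Fin m ⊕ Fin n) ℂ) (hP : ∀ r s, coeff s (P r) ∈ K)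
    (htri : ∀ r, ∀ s ∈ (P r).support, ∀ j, r < j → s (Sum.inr j) = 0)
    (e : Fin n → ℕ) (he : ∀ r, 1 ≤ e r)
    (hdeg : ∀ y : Fin m ⊕ Fin n → ℂ, ((∀ g ∈ B, eval (fun i => y (Sum.inl i)) g = 0) ∧
      ∃ g ∈ D, eval (fun i => y (Sum.inl i)) g ≠ 0) → ∀ r, (fib (Sum.inr r) y (P r)).natDegree = e r)
    (t : Fin m → ℂ) (ht : ∀ i, t i ∈ K) (htX : (∀ g ∈ B, eval t g = 0) ∧ ∃ g ∈ D, eval t g ≠ 0) (x : Fin n → ℂ)
    (V : Set (MvPolynomial (Fin m ⊕ Fin n) ℂ))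
    (hx : (∃ s : ℂ ≃+* ℂ, (∀ z ∈ K, s z = z) ∧
        Good (Ms s) (s : ℂ →+* ℂ) F B D t V ∧ (∀ r, ∃ k : ℕ, 1 ≤ k ∧ s^[k] (x r) = x r) ∧
        ∀ r : Fin n, 2 ≤ e r → ∃ l : ℕ, l.Prime ∧ e r < l ∧ l ∣ ln s x (r + 1) / ln s x r) ∨
      ((∀ s : ℂ ≃+* ℂ, (∀ z ∈ K, s z = z) → Good (Ms s) (s : ℂ →+* ℂ) F B D t V) ∧
        ∃ l : Fin n → ℕ, Function.Injective l ∧ ∀ r, (e r = 1 ∧ x r ∈ K) ∨ ((l r).Prime ∧ e r < l r ∧
        x r ∉ K ∧ ∃ L : IntermediateField K ℂ, IsGalois K L ∧ Module.finrank K L = l r ∧ x r ∈ L))) :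
    ∃ S : Finset (ℕ × ℕ), {k : ℕ | ∀ g ∈ V, eval ((fun y : Fin m ⊕ Fin n → ℂ =>
        Sum.elim (fun i => eval (fun j => y (Sum.inl j)) (F i)) fun r => eval y (P r))^[k] (Sum.elim t x)) g = 0} =
      {k | ∃ q ∈ S, ∃ j, k = q.1 + q.2 * j} := by
  have hΦ : (fun y : Fin m ⊕ Fin n → ℂ =>
        Sum.elim (fun i => eval (fun j => y (Sum.inl j)) (F i)) fun r => eval y (P r)) = evI (GG F P) := by
    funext y v
    rcases v with i | r
    · change eval (fun j => y (Sum.inl j)) (F i) = eval y (rename Sum.inl (F i))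
      rw [eval_rename]
      rfl
    · rfl
  rw [hΦ]
  have main : ∀ s : ℂ ≃+* ℂ, (∀ z ∈ K, s z = z) → Good (Ms s) (s : ℂ →+* ℂ) F B D t V → (∀ r, x r ∈ Ms s) →
      (∀ r : Fin n, 2 ≤ e r → ∃ l : ℕ, l.Prime ∧ e r < l ∧ l ∣ ln s x (r + 1) / ln s x r) →
      ∃ S : Finset (ℕ × ℕ), {k : ℕ | ∀ g ∈ V, eval ((evI (GG F P))^[k] (Sum.elim t x)) g = 0} =
        {k | ∃ q ∈ S, ∃ j, k = q.1 + q.2 * j} := by
    intro s hs hg hxA hc
    have hAc : ∀ z : ℂ, IsAlgebraic (Ms s) z → z ∈ Ms s := by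
      intro z hz
      have hz' : IsAlgebraic (algebraicClosure (Fs s) ℂ) z := hz
      have hB : Algebra.IsAlgebraic (Fs s) (algebraicClosure (Fs s) ℂ) := algebraicClosure.isAlgebraic (Fs s) ℂ
      rw [mem_Ms_alg]
      exact (isIntegral_trans (R := Fs s) (A := algebraicClosure (Fs s) ℂ) z (isAlgebraic_iff_isIntegral.1 hz')).isAlgebraic
    have hKF : ∀ z ∈ K, z ∈ Fs s := fun z hz => hs z hz
    have hFM : ∀ z ∈ Fs s, z ∈ Ms s := fun z hz => (mem_Ms_alg s z).2 (isAlgebraic_algebraMap (⟨z, hz⟩ : Fs s))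
    have hsA : ∀ z ∈ Ms s, s z ∈ Ms s := by
      intro z hz
      obtain ⟨k, hk, h⟩ := (mem_Ms s z).1 hz
      refine (mem_Ms s _).2 ⟨k, hk, ?_⟩
      rw [← Function.iterate_succ_apply, Function.iterate_succ_apply', h]
    exact tri7 (Ms s) hAc s hsA (fun z hz => (mem_Ms s z).1 hz)
      (fun Z hZ N₀ => Pool.Agent.Helper10.V4.frobS Pool.Agent.Helper26.HI.exS (Fs s) s (fun _ h => h) Z
        (fun z hz => (mem_Ms_alg s z).1 (hZ z hz)) N₀)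
      K (fun z hz => hFM z (hKF z hz)) B D hB hD F hF hFX P hP htri e he hdeg t ht htX x hxA V hs hg
      (fun r hr => Or.inl (hc r hr))
  rcases hx with ⟨s, hs, hg, hxA, hc⟩ | ⟨hun, l, hl, h⟩
  · exact main s hs hg (fun r => (mem_Ms s _).2 (hxA r)) hc
  · obtain ⟨s, hs, hc⟩ := cyc_cond K e x l hl h
    refine main s hs (hun s hs) ?_ hc
    intro r
    rw [mem_Ms]
    rcases h r with ⟨-, h1⟩ | ⟨hlr, -, -, L, hL, hfr, hxL⟩
    · exact ⟨1, le_rfl, hs _ h1⟩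
    · have hfd : FiniteDimensional K L := Module.finite_of_finrank_pos (by rw [hfr]; exact hlr.pos)
      have h1 : IsAlgebraic K (⟨x r, hxL⟩ : L) := Algebra.IsAlgebraic.isAlgebraic _
      exact Pool.Agent.Helper10.V4.per_algK K s hs (x r)
        ((isAlgebraic_algebraMap_iff (S := L) (A := ℂ) Subtype.val_injective).2 h1)

end

end Pool.Agent.Helper10.V6
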