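import Mathlib
import Pool.Agent.Helper10.Keep.NonrecurrentRamificationV6

set_option autoImplicit false

namespace Pool.Agent.Helper10.V6.Examples

open MvPolynomial Pool.Agent.Results.MP_295d38_ag.NonrecurrentRamification

theorem fo_of_fix {s : ℂ ≃+* ℂ} {z : ℂ} (h : s z = z) : FiniteOrbit s z := ⟨1, le_rfl, h⟩

theorem fo_zero (s : ℂ ≃+* ℂ) : FiniteOrbit s 0 := fo_of_fix (map_zero s)

theorem fo_one (s : ℂ ≃+* ℂ) : FiniteOrbit s 1 := fo_of_fix (map_one s)

theorem fo_one_coeff {m : ℕ} (s : ℂ ≃+* ℂ) : ∀ h ∈ ({1} : Set (MvPolynomial (Fin m) ℂ)), ∀ u,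
    FiniteOrbit s (coeff u h) := by
  classical
  intro h hh u
  rw [Set.mem_singleton_iff.1 hh, coeff_one]
  split_ifs
  · exact fo_one s
  · exact fo_zero s

/-- the empty set is a member -/
theorem av_empty {m : ℕ} (s : ℂ ≃+* ℂ) (F : Fin m → MvPolynomial (Fin m) ℂ)
    (B D : Set (MvPolynomial (Fin m) ℂ)) (t₀ : Fin m → ℂ) (V₀ R₀ : Set (MvPolynomial (Fin m) ℂ)) (b : Bool) :
    Avoided s F B D t₀ V₀ R₀ b {1} := by
  refine .union b {1} (fo_one_coeff s) 0 (fun i => i.elim0) (fun i => i.elim0) ?_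
  intro t _ h
  have := h 1 rfl
  simp at this

/-- a point moved by `s` is a member -/
theorem av_point {m : ℕ} (s : ℂ ≃+* ℂ) (F : Fin m → MvPolynomial (Fin m) ℂ)
    (B D : Set (MvPolynomial (Fin m) ℂ)) (t₀ : Fin m → ℂ) (V₀ R₀ : Set (MvPolynomial (Fin m) ℂ)) (b : Bool)
    (i : Fin m) (w : ℂ) (hw : FiniteOrbit s w) (hs : s w ≠ w) :
    Avoided s F B D t₀ V₀ R₀ b {X i - C w} := by
  classical
  refine .conj b _ ?_ {1} (av_empty s F B D t₀ V₀ R₀ b) ?_
  · intro h hh u
    rw [Set.mem_singleton_iff.1 hh, coeff_sub, coeff_X, coeff_C]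
    obtain ⟨k, hk, hk'⟩ := hw
    refine ⟨k, hk, ?_⟩
    have hh : s^[k] = ⇑((s : ℂ →+* ℂ) ^ k) := by
      funext z
      simp [RingHom.coe_pow]
    rw [hh, map_sub]
    have hk2 : ((s : ℂ →+* ℂ) ^ k) w = w := by rw [← hh]; exact hk'
    split_ifs <;> simp [hk2]
  · intro t _ h
    have h0 := h 0 _ ⟨_, rfl, rfl⟩
    have h1 := h 1 _ ⟨_, rfl, rfl⟩
    simp at h0 h1
    exact absurd (show s w = w by rw [← sub_eq_zero.1 h1, sub_eq_zero.1 h0]) hs

/-- Example 1: the maps `(x_i^2 + c_i)` and an automorphism moving all square roots of the `-c_i`. -/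
theorem ex1 {m : ℕ} (K : Subfield ℂ) (c : Fin m → ℂ) (hc : ∀ i, c i ∈ K) (s : ℂ ≃+* ℂ)
    (hs : ∀ z ∈ K, s z = z) (hm : ∀ i, ∀ w : ℂ, w ^ 2 = - c i → s w ≠ w)
    (t : Fin m → ℂ) (ht : ∀ i, t i ∈ K) (V : Set (MvPolynomial (Fin m ⊕ Fin 0) ℂ)) :
    ∃ S : Finset (ℕ × ℕ), {k : ℕ | ∀ g ∈ V, eval ((Phi (fun i => X i ^ 2 + C (c i)) (fun r => r.elim0))^[k]
      (Sum.elim t fun r => r.elim0)) g = 0} = {k | ∃ q ∈ S, ∃ j, k = q.1 + q.2 * j} := by
  classical
  refine result K ∅ {1} (fun g hg => absurd hg (Set.notMem_empty _)) ?_ _ ?_ ?_ _ (fun r => r.elim0)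
    (fun r => r.elim0) (fun r => r.elim0) (fun r => r.elim0) (fun _ _ r => r.elim0) t ht ?_ _ V ?_
  · intro g hg u
    rw [Set.mem_singleton_iff.1 hg, coeff_one]
    split_ifs
    · exact K.one_mem
    · exact K.zero_mem
  · intro i u
    rw [coeff_add, coeff_C, coeff_X_pow]
    split_ifs <;> first | exact K.add_mem K.one_mem (hc i) | simp [hc i, K.one_mem, K.zero_mem]
  · intro t _
    exact ⟨fun g hg => absurd hg (Set.notMem_empty _), 1, rfl, by simp⟩
  · exact ⟨fun g hg => absurd hg (Set.notMem_empty _), 1, rfl, by simp⟩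
  · refine Or.inl ⟨s, hs, ⟨∅, {∏ i, X i}, fun h hh => absurd hh (Set.notMem_empty _),
      fun _ _ _ h hh => absurd hh (Set.notMem_empty _), ?_, ?_⟩, fun r => r.elim0, fun r => r.elim0⟩
    · have hmem : ∀ (i : Fin m), ∀ h ∈ ({X i} : Set (MvPolynomial (Fin m) ℂ)), ∀ u,
          FiniteOrbit s (coeff u h) := by
        intro i h hh u
        rw [Set.mem_singleton_iff.1 hh, coeff_X]
        split_ifs
        · exact fo_one s
        · exact fo_zero s
      refine .union false _ ?_ m (fun i => {X i}) ?_ ?_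
      · intro h hh u
        rw [Set.mem_singleton_iff.1 hh]
        refine fo_of_fix ?_
        have : map (s : ℂ →+* ℂ) (∏ i : Fin m, X i) = ∏ i : Fin m, X i := by
          rw [map_prod]
          simp
        have h2 := congrArg (coeff u) this
        rw [coeff_map] at h2
        exact h2
      · intro i
        obtain ⟨w, hw⟩ : ∃ w : ℂ, w ^ 2 = - c i := IsAlgClosed.exists_pow_nat_eq _ (by norm_num)
        have hsw : s w ≠ w := hm i w hw
        have hsw' : s (-w) ≠ -w := hm i (-w) (by rw [neg_sq]; exact hw)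
        have hww : s (s w) = w := by
          have h1 : (s w) ^ 2 = w ^ 2 := by
            rw [← map_pow, hw, map_neg, hs _ (hc i)]
          rcases sq_eq_sq_iff_eq_or_eq_neg.1 h1 with h | h
          · exact absurd h hsw
          · rw [h, map_neg, h, neg_neg]
        have hfo : FiniteOrbit s w := ⟨2, by norm_num, hww⟩
        have hfo' : FiniteOrbit s (-w) := ⟨2, by norm_num, by
          change s (s (-w)) = -w
          rw [map_neg, map_neg, hww]⟩
        refine .preimage false _ (hmem i) {X i ^ 2 + C (c i)} ?_ ?_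
        · refine .union false _ ?_ 2 ![{X i - C w}, {X i - C (-w)}] ?_ ?_
          · intro h hh u
            rw [Set.mem_singleton_iff.1 hh, coeff_add, coeff_C, coeff_X_pow]
            refine fo_of_fix ?_
            rw [map_add]
            split_ifs <;> simp [hs _ (hc i)]
          · intro q
            fin_cases q
            · exact av_point s _ _ _ _ _ _ _ i w hfo hsw
            · exact av_point s _ _ _ _ _ _ _ i (-w) hfo' hsw'
          · intro t _ h
            have h1 := h _ rfl
            simp only [map_add, map_pow, eval_X, eval_C] at h1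
            have h2 : t i ^ 2 = w ^ 2 := by rw [hw]; exact eq_neg_of_add_eq_zero_left h1
            rcases sq_eq_sq_iff_eq_or_eq_neg.1 h2 with h | h
            · refine ⟨0, ?_⟩
              intro g hg
              change g ∈ ({X i - C w} : Set _) at hg
              rw [Set.mem_singleton_iff.1 hg]
              simp [h]
            · refine ⟨1, ?_⟩
              intro g hg
              change g ∈ ({X i - C (-w)} : Set _) at hg
              rw [Set.mem_singleton_iff.1 hg]
              simp [h]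
        · intro t _ h g hg
          rw [Set.mem_singleton_iff.1 hg]
          have h1 := h _ rfl
          simp only [baseMap, eval_X] at h1
          exact h1
      · intro t _ h
        have h1 := h _ rfl
        rw [map_prod] at h1
        obtain ⟨i, _, hi⟩ := Finset.prod_eq_zero_iff.1 h1
        refine ⟨i, ?_⟩
        intro g hg
        rw [Set.mem_singleton_iff.1 hg]
        exact hi
    · rintro t _ ⟨v, hv, hv1, -⟩
      intro g hg
      rw [Set.mem_singleton_iff.1 hg, map_prod]
      obtain ⟨i, hi⟩ : ∃ i, v i ≠ 0 := by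
        by_contra hcon
        push Not at hcon
        exact hv (funext hcon)
      refine Finset.prod_eq_zero (Finset.mem_univ i) ?_
      have h1 := hv1 i
      simp only [map_add, pderiv_C, add_zero, Derivation.leibniz_pow, pderiv_X] at h1
      rw [Finset.sum_eq_single i] at h1
      · simp at h1
        rw [eval_X]
        tauto
      · intro j _ hj
        simp [Pi.single_eq_of_ne' hj]
      · intro h
        exact absurd (Finset.mem_univ i) h

/-- Example 2: `F(R) ⊆ Y`, `F(Y) ⊆ Y` (PCF), `V` over `M`, the points of `V ∩ Y` finitely many, over `M`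
and moved by `s`. -/
theorem ex2 {m : ℕ} (K : Subfield ℂ) (F : Fin m → MvPolynomial (Fin m) ℂ) (hF : ∀ i s, coeff s (F i) ∈ K)
    (s : ℂ ≃+* ℂ) (hs : ∀ z ∈ K, s z = z) (R Y : Set (MvPolynomial (Fin m) ℂ))
    (hR : ∀ h ∈ R, ∀ u, FiniteOrbit s (coeff u h)) (hY : ∀ h ∈ Y, ∀ u, FiniteOrbit s (coeff u h))
    (hRam : ∀ t, IsRamified F ∅ t → On R t) (hRY : ∀ t, On R t → On Y (baseMap F t))
    (hYY : ∀ t, On Y t → On Y (baseMap F t))
    (V₀ : Set (MvPolynomial (Fin m) ℂ)) (hV : ∀ h ∈ V₀, ∀ u, FiniteOrbit s (coeff u h))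
    (q : ℕ) (p : Fin q → Fin m → ℂ) (hp : ∀ a i, FiniteOrbit s (p a i))
    (hp' : ∀ a, ∃ i, s (p a i) ≠ p a i) (hVY : ∀ t, On V₀ t → On Y t → ∃ a, t = p a)
    (t : Fin m → ℂ) (ht : ∀ i, t i ∈ K) :
    ∃ S : Finset (ℕ × ℕ), {k : ℕ | ∀ g ∈ (fun h => rename Sum.inl h) '' V₀,
      eval ((Phi F (fun r : Fin 0 => r.elim0))^[k]
      (Sum.elim t fun r => r.elim0)) g = 0} = {k | ∃ q ∈ S, ∃ j, k = q.1 + q.2 * j} := by
  classical
  refine result K ∅ {1} (fun g hg => absurd hg (Set.notMem_empty _)) ?_ _ hF ?_ _ (fun r => r.elim0)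
    (fun r => r.elim0) (fun r => r.elim0) (fun r => r.elim0) (fun _ _ r => r.elim0) t ht ?_ _ _ ?_
  · intro g hg u
    rw [Set.mem_singleton_iff.1 hg, coeff_one]
    split_ifs
    · exact K.one_mem
    · exact K.zero_mem
  · intro t _
    exact ⟨fun g hg => absurd hg (Set.notMem_empty _), 1, rfl, by simp⟩
  · exact ⟨fun g hg => absurd hg (Set.notMem_empty _), 1, rfl, by simp⟩
  · refine Or.inl ⟨s, hs, ⟨V₀, R, hV, ?_, ?_, fun t _ h => hRam t h⟩, fun r => r.elim0, fun r => r.elim0⟩
    · intro y _ h g hg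
      have h1 := h _ ⟨g, hg, rfl⟩
      simp only [eval_rename] at h1
      exact h1
    · refine .invariant R hR Y hY R V₀ (Or.inl rfl) (Or.inr (Or.inl rfl)) (V₀ ∪ Y) ?_
        (fun t _ h => Or.inl (h.elim (hRY t) (hYY t))) ?_
      · refine .union false _ ?_ q (fun a => Set.range fun i => X i - C (p a i)) ?_ ?_
        · rintro h (hh | hh) u
          · exact hV h hh u
          · exact hY h hh u
        · intro a
          obtain ⟨i, hi⟩ := hp' a
          refine .union false _ ?_ 1 (fun _ => {X i - C (p a i)})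
            (fun _ => av_point s _ _ _ _ _ _ _ i _ (hp a i) hi) ?_
          · rintro _ ⟨j, rfl⟩ u
            rw [coeff_sub, coeff_X, coeff_C]
            obtain ⟨k, hk, hk'⟩ := hp a j
            refine ⟨k, hk, ?_⟩
            have hh : s^[k] = ⇑((s : ℂ →+* ℂ) ^ k) := by
              funext z
              simp [RingHom.coe_pow]
            rw [hh, map_sub]
            have hk2 : ((s : ℂ →+* ℂ) ^ k) (p a j) = p a j := by rw [← hh]; exact hk'
            split_ifs <;> simp [hk2]
          · intro t _ h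
            refine ⟨0, ?_⟩
            intro g hg
            rw [Set.mem_singleton_iff.1 hg]
            exact h _ ⟨i, rfl⟩
        · intro t _ h
          obtain ⟨a, ha⟩ := hVY t (fun g hg => h g (Or.inl hg)) (fun g hg => h g (Or.inr hg))
          refine ⟨a, ?_⟩
          rintro _ ⟨j, rfl⟩
          simp [ha]
      · intro t _ h h' g hg
        rcases hg with hg | hg
        · exact h g hg
        · exact h' g hg

end Pool.Agent.Helper10.V6.Examples
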